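import Mathlib
import Pool.Agent.Helper73.SM.Goals

/-!
Project SM, packet RCI: binomial coefficients of rational numbers.
-/

set_option autoImplicit false

namespace Pool.Agent.Helper86.SM

open Pool.Agent.Helper73.SM
open Finset

theorem desc_prod (r : ℝ) (n : ℕ) :
    (descPochhammer ℤ n).smeval r = ∏ i ∈ range n, (r - (i : ℝ)) := by
  induction n with
  | zero => simp
  | succ n ih =>
    rw [descPochhammer_succ_right, Polynomial.smeval_mul, ih, Finset.prod_range_succ]
    congr 1
    simp [Polynomial.smeval_sub, Polynomial.smeval_X, Polynomial.smeval_natCast]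

/-- Packet RCI. -/
theorem goalRCI (hINT : StmtINT) : StmtRCI := by
  intro a k j hk
  obtain ⟨m, hm⟩ := hINT a k j
  refine ⟨m, ?_⟩
  have hk0 : (k : ℝ) ≠ 0 := by
    have : (1 : ℝ) ≤ k := by exact_mod_cast hk
    linarith
  have h1 := Ring.descPochhammer_eq_factorial_smul_choose ((a : ℝ) / k) j
  rw [desc_prod, nsmul_eq_mul] at h1
  have h2 : (k : ℝ) ^ j * ∏ i ∈ range j, ((a : ℝ) / k - (i : ℝ)) =
      ∏ i ∈ range j, ((a : ℝ) - i * k) := by
    have h3 : (k : ℝ) ^ j = ∏ _i ∈ range j, (k : ℝ) := by simp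
    rw [h3, ← Finset.prod_mul_distrib]
    refine Finset.prod_congr rfl (fun i _ => ?_)
    field_simp
  have h4 : (k : ℝ) ^ j * ∏ i ∈ range j, ((a : ℝ) - i * k) = (j.factorial : ℝ) * m := by
    have := congrArg (fun z : ℤ => (z : ℝ)) hm
    push_cast at this
    exact this
  have hf : (j.factorial : ℝ) ≠ 0 := by exact_mod_cast j.factorial_ne_zero
  apply mul_left_cancel₀ hf
  rw [← h4, ← h2, h1, two_mul, pow_add]
  ring

end Pool.Agent.Helper86.SM
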